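import Pool.Agent.OGP.Main

/-!
# Outer 1-gap planar graphs can be recognised in polynomial time
-/

namespace Pool.Agent.Results.MP_ea6261_lc.RecognitionInP

open Pool.Agent.OGP

/-- The recognition problem for (connected) outer 1-gap planar graphs is decided by a Turing machine
in polynomial time. -/
theorem result : InP OuterOneGap := main

end Pool.Agent.Results.MP_ea6261_lc.RecognitionInP
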